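import Pool.Agent.Lib.MP_eae870_an.Transnormal
import Pool.Agent.Lib.MP_eae870_an.Quotient

set_option autoImplicit false

open MeasureTheory Set Topology Filter
open scoped ENNReal
open Pool.Agent.Lib.MP_eae870_an

namespace Pool.Agent.Results.MP_eae870_an.IntervalBasicData

universe u

/-- **Continuity of optimal maps for basic data over an interval, in every dimension.**
Let `X` be a compact metric space and let `p : X → [0, L]` be a submersion with fibre measures
`κ t` and constant `A = 1` (so the fibre measures are carried to each other by plans moving every
point by exactly the distance of the parameters), such that from every point over the open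
interval there is at most one point of a given fibre at that distance. Let `μ`, `ν` be probability
measures on `[0, L]`, `μ` without atoms and `ν` positive on nonempty open sets. Then there is a
unique optimal plan, for the cost `d ^ 2 / 2`, between the measures on `X` obtained by integrating
the fibre measures against `μ` and `ν`, and it is given by a continuous map.

Examples are closed Riemannian manifolds with an isometric action of a compact group whose orbit
space is `[0, L]` (see `exists_isSubmersion_quotient`), with `κ t` the invariant probability
measure of the orbit over `t`, and more generally closed Riemannian manifolds with an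
isoparametric function. The measures in the statement are then those whose density with respect
to the volume is a function of `p`; neither the MTW condition nor the convexity of the tangent cut
loci is assumed. -/
theorem result {X : Type u} [MetricSpace X] [CompactSpace X] [MeasurableSpace X] [BorelSpace X]
    (L : ℝ) (hL : 0 < L) (p : X → Icc (0 : ℝ) L) (κ : Icc (0 : ℝ) L → ProbabilityMeasure X)
    (hp : IsSubmersion p κ 1) (hn : HasUniqueFeet p)
    (μ ν : Measure (Icc (0 : ℝ) L)) [IsProbabilityMeasure μ] [IsProbabilityMeasure ν]
    (hμ : ∀ t, μ {t} = 0) (hν : ∀ U : Set (Icc (0 : ℝ) L), IsOpen U → U.Nonempty → ν U ≠ 0) :
    HasContinuousOptimalMap (μ.bind fun t => (κ t : Measure X))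
      (ν.bind fun t => (κ t : Measure X)) := by
  have h1 : NullSingletonClass μ := ⟨hμ⟩
  have h2 : ν.IsOpenPosMeasure := ⟨hν⟩
  exact basic_data hL hp hn μ ν

end Pool.Agent.Results.MP_eae870_an.IntervalBasicData
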