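import Pool.Agent.Lib.MP_eae870_an.Descent
import Pool.Agent.Lib.MP_eae870_an.Quotient

set_option autoImplicit false

open MeasureTheory Set Topology Filter
open scoped ENNReal
open Pool.Agent.Lib.MP_eae870_an

namespace Pool.Agent.Results.MP_eae870_an.SubmersionDescent

universe u v

/-- **The continuity property of optimal transport maps descends along submersions, and it is
enough to know it on the total space for the constant source density.**
Let `p : X → B` be a submersion of compact metric spaces with fibre measures `κ` and constant `A`,
let `mX` be a probability measure on `X` and `mB` a finite measure on `B` which is positive on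
nonempty open sets, and assume that `mX` and the integral of the fibre measures `κ b` against `mB`
are comparable (up to the factor `A`). If for every probability measure `ν` on `X` with a density
bounded from above and below the optimal map from `mX` to `ν` is continuous, then for all
probability measures `μ`, `ν` on `B` with densities bounded from above and below the optimal map
from `μ` to `ν` is continuous.

For a Riemannian submersion `p` between closed manifolds one takes for `κ b` the normalised
volume of the fibre, for `mX` the normalised volume and for `mB` the volume: a minimal geodesic
from `b` to `b'` has horizontal lifts of the same length, which give a diffeomorphism of the fibres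
with bounded Jacobian; this gives the plans in the field `lift`. -/
theorem result {X : Type u} [MetricSpace X] [CompactSpace X] [MeasurableSpace X] [BorelSpace X]
    {B : Type v} [MetricSpace B] [CompactSpace B] [MeasurableSpace B] [BorelSpace B]
    (p : X → B) (κ : B → ProbabilityMeasure X) (A : ℝ≥0∞) (hA : A ≠ ∞)
    (hp : IsSubmersion p κ A)
    (mX : Measure X) [IsProbabilityMeasure mX]
    (mB : Measure B) [IsFiniteMeasure mB] [mB.IsOpenPosMeasure]
    (hle : mX ≤ A • mB.bind fun b => (κ b : Measure X))
    (hge : (mB.bind fun b => (κ b : Measure X)) ≤ A • mX)
    (hX : ∀ ν : Measure X, IsProbabilityMeasure ν → HasBoundedDensity mX ν →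
      HasContinuousOptimalMap mX ν) :
    ∀ μ ν : Measure B, IsProbabilityMeasure μ → IsProbabilityMeasure ν →
      HasBoundedDensity mB μ → HasBoundedDensity mB ν → HasContinuousOptimalMap μ ν := by
  intro μ ν hμp hνp hμ hν
  exact descent hA hp hle hge hX hμ hν

end Pool.Agent.Results.MP_eae870_an.SubmersionDescent
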